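import Mathlib

set_option linter.all false

namespace Pool.Agent.Results.MP_c04d7c_ag.SixCycle

open MvPolynomial

noncomputable section

/-- a coloured graph on the vertex set `Fin m`: vertex colours and edge colours (only the values of
`ecol` on edges matter). -/
structure ColouredGraph (m : ℕ) where
  graph : SimpleGraph (Fin m)
  vcol : Fin m → ℕ
  ecol : Sym2 (Fin m) → ℕ

/-- the linear space `L_G` of symmetric matrices. -/
def ColouredGraph.space {m : ℕ} (G : ColouredGraph m) : Set (Matrix (Fin m) (Fin m) ℝ) :=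
  {K | K.IsSymm ∧ (∀ i j, i ≠ j → ¬ G.graph.Adj i j → K i j = 0) ∧
    (∀ i j, G.vcol i = G.vcol j → K i i = K j j) ∧
    (∀ i j k l, G.graph.Adj i j → G.graph.Adj k l → G.ecol s(i, j) = G.ecol s(k, l) →
      K i j = K k l)}

/-- the set `L_G⁻¹` of inverses. -/
def ColouredGraph.inverses {m : ℕ} (G : ColouredGraph m) : Set (Matrix (Fin m) (Fin m) ℝ) :=
  {M | ∃ K ∈ G.space, IsUnit K.det ∧ M = K⁻¹}

/-- the index set of the variables `x_{ij}`, `i ≤ j`. -/
abbrev Idx (m : ℕ) : Type := {p : Fin m × Fin m // p.1 ≤ p.2}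

/-- the variable `x_{ij} = x_{ji}`. -/
def x {m : ℕ} (i j : Fin m) : MvPolynomial (Idx m) ℝ := X ⟨(min i j, max i j), min_le_max⟩

/-- the coordinates of a symmetric matrix. -/
def coords {m : ℕ} (M : Matrix (Fin m) (Fin m) ℝ) : Idx m → ℝ := fun p => M p.1.1 p.1.2

/-- the vanishing ideal `I(L_G⁻¹)`. -/
def ColouredGraph.ideal {m : ℕ} (G : ColouredGraph m) : Ideal (MvPolynomial (Idx m) ℝ) :=
  vanishingIdeal ℝ (coords '' G.inverses)

/-- symmetries of a coloured graph. -/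
def ColouredGraph.IsSymmetry {m : ℕ} (G : ColouredGraph m) (σ : Equiv.Perm (Fin m)) : Prop :=
  (∀ i j, G.graph.Adj (σ i) (σ j) ↔ G.graph.Adj i j) ∧ (∀ i, G.vcol (σ i) = G.vcol i) ∧
    ∀ i j, G.graph.Adj i j → G.ecol s(σ i, σ j) = G.ecol s(i, j)

/-- the real span of the forms `x_{ij} - x_{σ(i)σ(j)}`, `σ` a symmetry. -/
def ColouredGraph.induced {m : ℕ} (G : ColouredGraph m) :
    Submodule ℝ (MvPolynomial (Idx m) ℝ) :=
  Submodule.span ℝ {f | ∃ σ : Equiv.Perm (Fin m), G.IsSymmetry σ ∧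
    ∃ i j : Fin m, f = x i j - x (σ i) (σ j)}

/-- the underlying graph is the cycle `C_n`. -/
def ColouredGraph.IsCycle {n : ℕ} (G : ColouredGraph n) : Prop :=
  G.graph = SimpleGraph.cycleGraph n

/-- linear forms with exactly two nonzero coefficients. -/
def IsBinomialLinear {m : ℕ} (f : MvPolynomial (Idx m) ℝ) : Prop :=
  f.IsHomogeneous 1 ∧ f.support.card = 2

/-- the matrices of the example. -/
def mat (v a b : ℝ) : Matrix (Fin 6) (Fin 6) ℝ :=
  !![v, a, 0, 0, 0, b;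
     a, v, a, 0, 0, 0;
     0, a, v, b, 0, 0;
     0, 0, b, v, a, 0;
     0, 0, 0, a, v, b;
     b, 0, 0, 0, b, v]

theorem adj_eq (v a b : ℝ) : (mat v a b).adjugate 1 5 = (mat v a b).adjugate 2 4 := by
  rw [Matrix.adjugate_fin_succ_eq_det_submatrix, Matrix.adjugate_fin_succ_eq_det_submatrix]
  have h1 : (mat v a b).submatrix (Fin.succAbove 5) (Fin.succAbove 1) =
      !![v, 0, 0, 0, b; a, a, 0, 0, 0; 0, v, b, 0, 0; 0, b, v, a, 0; 0, 0, a, v, b] := by
    ext i j
    fin_cases i <;> fin_cases j <;> rfl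
  have h2 : (mat v a b).submatrix (Fin.succAbove 4) (Fin.succAbove 2) =
      !![v, a, 0, 0, b; a, v, 0, 0, 0; 0, a, b, 0, 0; 0, 0, v, a, 0; b, 0, 0, b, v] := by
    ext i j
    fin_cases i <;> fin_cases j <;> rfl
  rw [h1, h2]
  simp [Matrix.det_succ_row_zero, Fin.sum_univ_succ, Fin.succAbove]
  ring

/-- the `6`-cycle with one vertex colour and edge colours `a, a, b, a, b, b`. -/
def G : ColouredGraph 6 where
  graph := SimpleGraph.cycleGraph 6
  vcol := fun _ => 0
  ecol := fun e => if e = s(2, 3) ∨ e = s(4, 5) ∨ e = s(0, 5) then 1 else 0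

theorem eq_mat {K : Matrix (Fin 6) (Fin 6) ℝ} (hK : K ∈ G.space) :
    K = mat (K 0 0) (K 0 1) (K 2 3) := by
  obtain ⟨h1, h2, h3, h4⟩ := hK
  have hadj : ∀ i j, G.graph.Adj i j ↔ (SimpleGraph.cycleGraph 6).Adj i j := fun _ _ => Iff.rfl
  simp only [hadj] at h2 h4
  have hz : ∀ i j : Fin 6, i ≠ j → ¬ (SimpleGraph.cycleGraph 6).Adj i j → K i j = 0 := h2
  ext i j
  fin_cases i <;> fin_cases j
  all_goals first
    | exact h3 _ _ rfl
    | exact h2 _ _ (by decide) (by decide)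
    | exact h4 _ _ 0 1 (by decide) (by decide) (by decide)
    | exact h4 _ _ 2 3 (by decide) (by decide) (by decide)

theorem inv_eq {K : Matrix (Fin 6) (Fin 6) ℝ} (hK : K ∈ G.space) : K⁻¹ 1 5 = K⁻¹ 2 4 := by
  rw [Matrix.inv_def, Matrix.smul_apply, Matrix.smul_apply, eq_mat hK, adj_eq]

theorem mem_ideal : (x 1 5 - x 2 4 : MvPolynomial (Idx 6) ℝ) ∈ G.ideal := by
  unfold ColouredGraph.ideal
  rw [mem_vanishingIdeal_iff]
  rintro _ ⟨M, ⟨K, hK, hu, rfl⟩, rfl⟩
  rw [map_sub, sub_eq_zero]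
  simp only [x, aeval_X]
  exact inv_eq hK

theorem binom_support {m : ℕ} {p q : Idx m} (h : p ≠ q) :
    (X p - X q : MvPolynomial (Idx m) ℝ).support = {Finsupp.single p 1, Finsupp.single q 1} := by
  classical
  have hs : (Finsupp.single p 1 : Idx m →₀ ℕ) ≠ Finsupp.single q 1 := by
    intro h'
    exact h (Finsupp.single_left_injective one_ne_zero h')
  ext e
  rw [mem_support_iff, coeff_sub, coeff_X, coeff_X, Finset.mem_insert, Finset.mem_singleton]
  by_cases h1 : Finsupp.single p 1 = e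
  · subst h1
    simp [hs.symm]
  · by_cases h2 : Finsupp.single q 1 = e
    · subst h2
      simp [hs]
    · simp [h1, h2, Ne.symm h1, Ne.symm h2]

/-- adjacency by an edge of colour `c`. -/
def A (c : ℕ) (i j : Fin 6) : Prop := (SimpleGraph.cycleGraph 6).Adj i j ∧
  (if s(i, j) = s(2, 3) ∨ s(i, j) = s(4, 5) ∨ s(i, j) = s(0, 5) then 1 else 0) = c

instance (c : ℕ) (i j : Fin 6) : Decidable (A c i j) := by unfold A; infer_instance

theorem sym_trivial {σ : Equiv.Perm (Fin 6)} (hσ : G.IsSymmetry σ) : ∀ i, σ i = i := by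
  obtain ⟨h1, -, h3⟩ := hσ
  have hA : ∀ c i j, A c i j → A c (σ i) (σ j) := by
    intro c i j ⟨h, h'⟩
    refine ⟨(h1 i j).mpr h, ?_⟩
    rw [← h']
    exact h3 i j h
  have hne : ∀ i j, i ≠ j → σ i ≠ σ j := fun i j h h' => h (σ.injective h')
  have F1 : ∀ p q r : Fin 6, p ≠ r → A 0 p q → A 0 q r → q = 1 := by decide
  have F2 : ∀ p q r : Fin 6, p ≠ r → A 1 p q → A 1 q r → q = 5 := by decide
  have F3 : ∀ p : Fin 6, A 0 p 1 → A 1 p 5 → p = 0 := by decide
  have F4 : ∀ p : Fin 6, p ≠ 0 → A 0 1 p → p = 2 := by decide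
  have F5 : ∀ p : Fin 6, A 1 2 p → p = 3 := by decide
  have F6 : ∀ p : Fin 6, A 0 3 p → p = 4 := by decide
  have e1 : σ 1 = 1 := F1 (σ 0) (σ 1) (σ 2) (hne 0 2 (by decide)) (hA 0 0 1 (by decide))
    (hA 0 1 2 (by decide))
  have e5 : σ 5 = 5 := F2 (σ 4) (σ 5) (σ 0) (hne 4 0 (by decide)) (hA 1 4 5 (by decide))
    (hA 1 5 0 (by decide))
  have e0 : σ 0 = 0 := F3 (σ 0) (by have := hA 0 0 1 (by decide); rwa [e1] at this)
    (by have := hA 1 0 5 (by decide); rwa [e5] at this)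
  have e2 : σ 2 = 2 := F4 (σ 2) (by have := hne 2 0 (by decide); rwa [e0] at this)
    (by have := hA 0 1 2 (by decide); rwa [e1] at this)
  have e3 : σ 3 = 3 := F5 (σ 3) (by have := hA 1 2 3 (by decide); rwa [e2] at this)
  have e4 : σ 4 = 4 := F6 (σ 4) (by have := hA 0 3 4 (by decide); rwa [e3] at this)
  intro i
  fin_cases i
  · exact e0
  · exact e1
  · exact e2
  · exact e3
  · exact e4
  · exact e5

theorem induced_zero : G.induced = ⊥ := by
  rw [eq_bot_iff]
  unfold ColouredGraph.induced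
  rw [Submodule.span_le]
  rintro f ⟨σ, hσ, i, j, rfl⟩
  rw [sym_trivial hσ i, sym_trivial hσ j, sub_self]
  exact Submodule.zero_mem _

/-- **A counterexample**: a coloured `6`-cycle (with one vertex colour and two edge colours) and a
binomial linear form in `I(L⁻¹)` which is not induced by symmetries. -/
theorem result : ∃ G : ColouredGraph 6, G.IsCycle ∧ (∀ i j, G.vcol i = G.vcol j) ∧
    ∃ f ∈ G.ideal, IsBinomialLinear f ∧ f ∉ G.induced := by
  have hne : (⟨(min (1 : Fin 6) 5, max (1 : Fin 6) 5), min_le_max⟩ : Idx 6)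
      ≠ ⟨(min (2 : Fin 6) 4, max (2 : Fin 6) 4), min_le_max⟩ := by decide
  refine ⟨G, rfl, fun _ _ => rfl, x 1 5 - x 2 4, mem_ideal, ⟨?_, ?_⟩, ?_⟩
  · exact (isHomogeneous_X _ _).sub (isHomogeneous_X _ _)
  · unfold x
    rw [binom_support hne, Finset.card_pair]
    intro h'
    exact hne (Finsupp.single_left_injective one_ne_zero h')
  · rw [induced_zero, Submodule.mem_bot]
    intro h0
    have h1 := binom_support hne
    have h2 : (x 1 5 - x 2 4 : MvPolynomial (Idx 6) ℝ).support = _ := h1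
    rw [h0, support_zero] at h2
    exact Finset.insert_ne_empty _ _ h2.symm

end

end Pool.Agent.Results.MP_c04d7c_ag.SixCycle
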